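import Pool.Agent.Helper10.V2.Defs
import Pool.Agent.Helper26.RE.Main
import Pool.Agent.Helper11.TR.RU

/-!
# V2: the complex conjugation as a Frobenius
-/

set_option autoImplicit false

namespace Pool.Agent.Helper10.V2

open Pool.Agent.Helper61.TH Pool.Agent.Helper87.FK Pool.Agent.Helper26.OB Pool.Agent.Helper10.TR

noncomputable section

theorem conj_pow (l : ℕ) : ((starRingEnd ℂ) ^ l = 1 ∧ Even l) ∨ ((starRingEnd ℂ) ^ l = starRingEnd ℂ ∧ ¬ Even l) := by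
  have h2 : (starRingEnd ℂ) ^ 2 = 1 := by
    ext z
    change (starRingEnd ℂ) ((starRingEnd ℂ) z) = z
    exact Complex.conj_conj z
  rcases Nat.even_or_odd l with h | h
  · obtain ⟨k, rfl⟩ := h
    exact Or.inl ⟨by rw [← two_mul, pow_mul, h2, one_pow], ⟨k, rfl⟩⟩
  · have h3 := h
    obtain ⟨k, rfl⟩ := h
    exact Or.inr ⟨by rw [pow_succ, pow_mul, h2, one_pow, one_mul], Nat.not_even_iff_odd.2 h3⟩

theorem frob_conj (Z : Finset ℂ) (N₀ : ℕ) : ∃ (p : ℕ) (_ : Fact p.Prime) (τ : ℂ →+* PadicAlgCl p), N₀ < p ∧ Un τ Z ∧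
      (∀ z ∈ Z, ∀ m : ℕ, ‖(τ z) ^ p ^ m - τ z‖ < 1 ↔ (starRingEnd ℂ)^[m] z = z) ∧ FrobPlus (starRingEnd ℂ) τ Z := by
  classical
  set W : Finset ℂ := Z ∪ (Z.image (starRingEnd ℂ) ∪ (Z.image (fun z => ((z.re : ℝ) : ℂ)) ∪
    (Z.image (fun z => ((z.im : ℝ) : ℂ)) ∪ {Complex.I}))) with hW
  obtain ⟨p, hp, τ, hN, hUn, hfr⟩ := Pool.Agent.Helper26.RE.exR W (max N₀ 2)
  have hp2 : 2 < p := lt_of_le_of_lt (le_max_right _ _) hN
  have hpo : Odd p := hp.out.odd_of_ne_two hp2.ne'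
  have m1 : ∀ z ∈ Z, z ∈ W := fun z hz => Finset.mem_union_left _ hz
  have m2 : ∀ z ∈ Z, (starRingEnd ℂ) z ∈ W := fun z hz => Finset.mem_union_right _ (Finset.mem_union_left _
    (Finset.mem_image_of_mem _ hz))
  have m3 : ∀ z ∈ Z, ((z.re : ℝ) : ℂ) ∈ W := fun z hz => Finset.mem_union_right _ (Finset.mem_union_right _
    (Finset.mem_union_left _ (Finset.mem_image.2 ⟨z, hz, rfl⟩)))
  have m4 : ∀ z ∈ Z, ((z.im : ℝ) : ℂ) ∈ W := fun z hz => Finset.mem_union_right _ (Finset.mem_union_right _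
    (Finset.mem_union_right _ (Finset.mem_union_left _ (Finset.mem_image.2 ⟨z, hz, rfl⟩))))
  have m5 : Complex.I ∈ W := Finset.mem_union_right _ (Finset.mem_union_right _
    (Finset.mem_union_right _ (Finset.mem_union_right _ (Finset.mem_singleton_self _))))
  have hcp : CharP (kk p) p := charP_kk p
  refine ⟨p, hp, τ, lt_of_le_of_lt (le_max_left _ _) hN, fun z hz => hUn z (m1 z hz), fun z hz => hfr z (m1 z hz), ?_⟩
  -- the residue of `i`
  have hI1 : ‖τ Complex.I‖ ≤ 1 := (hUn _ m5).1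
  have hsq : rd τ Complex.I ^ 2 = -1 := by
    have h1 := rd_coe τ (⟨Complex.I, (mem_Ot τ).2 hI1⟩ ^ 2 + 1)
    rw [map_add, map_pow, map_one, ← rd_coe τ] at h1
    have h2 : rd τ (Complex.I ^ 2 + 1) = 0 := by
      rw [Complex.I_sq, neg_add_cancel, rd_zero]
    exact eq_neg_of_add_eq_zero_left (h1.symm.trans h2)
  have hIp : rd τ Complex.I ^ p = - rd τ Complex.I := by
    obtain ⟨k, hk⟩ := hpo
    have h1 : rd τ Complex.I ^ p = rd τ Complex.I * (-1) ^ k := by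
      have h0 : rd τ Complex.I ^ p = rd τ Complex.I ^ (2 * k + 1) := congrArg (fun e => rd τ Complex.I ^ e) hk
      rw [h0, pow_succ, pow_mul, hsq, mul_comm]
    rcases neg_one_pow_eq_or (kk p) k with h2 | h2
    · exfalso
      rw [h2, mul_one] at h1
      have h3 : (starRingEnd ℂ)^[1] Complex.I = Complex.I := by
        refine (hfr _ m5 1).1 ?_
        rw [pow_one]
        have h4 : ‖τ (Complex.I ^ p - Complex.I)‖ ≤ 1 := by
          rw [map_sub, sub_eq_add_neg]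
          refine (PadicAlgCl.isNonarchimedean p _ _).trans (max_le ?_ ?_)
          · rw [map_pow, norm_pow]
            exact pow_le_one₀ (norm_nonneg _) hI1
          · rw [norm_neg]
            exact hI1
        have h5 : ‖τ (Complex.I ^ p)‖ ≤ 1 := by
          rw [map_pow, norm_pow]
          exact pow_le_one₀ (norm_nonneg _) hI1
        have h6 := (rd_eq_zero τ h4).1 (by
          rw [Pool.Agent.Helper11.OB.rd_sub τ h5 hI1, Pool.Agent.Helper11.TR.rd_powR τ hI1, h1, sub_self])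
        rwa [map_sub, map_pow] at h6
      rw [Function.iterate_one, Complex.conj_I] at h3
      have h4 := congrArg Complex.im h3
      norm_num at h4
    · rw [h1, h2]
      ring
  -- the Frobenius on `Z`
  have key : ∀ z ∈ Z, ‖(τ z) ^ p - τ ((starRingEnd ℂ) z)‖ < 1 := by
    intro z hz
    have a1 : ‖τ ((z.re : ℝ) : ℂ)‖ ≤ 1 := (hUn _ (m3 z hz)).1
    have b1 : ‖τ ((z.im : ℝ) : ℂ)‖ ≤ 1 := (hUn _ (m4 z hz)).1
    have ap : rd τ ((z.re : ℝ) : ℂ) ^ p = rd τ ((z.re : ℝ) : ℂ) := by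
      have h1 := (hfr _ (m3 z hz) 1).2 (by rw [Function.iterate_one, Complex.conj_ofReal])
      rw [pow_one] at h1
      exact Pool.Agent.Helper11.TR.rd_pow_eqR τ a1 a1 h1
    have bp : rd τ ((z.im : ℝ) : ℂ) ^ p = rd τ ((z.im : ℝ) : ℂ) := by
      have h1 := (hfr _ (m4 z hz) 1).2 (by rw [Function.iterate_one, Complex.conj_ofReal])
      rw [pow_one] at h1
      exact Pool.Agent.Helper11.TR.rd_pow_eqR τ b1 b1 h1
    -- residues as a ring homomorphism on the integral elements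
    have hz1 : ‖τ z‖ ≤ 1 := (hUn _ (m1 z hz)).1
    have hc1 : ‖τ ((starRingEnd ℂ) z)‖ ≤ 1 := (hUn _ (m2 z hz)).1
    have e1 : rd τ z = rd τ ((z.re : ℝ) : ℂ) + rd τ ((z.im : ℝ) : ℂ) * rd τ Complex.I := by
      have h1 := rd_coe τ (⟨((z.re : ℝ) : ℂ), (mem_Ot τ).2 a1⟩ + ⟨((z.im : ℝ) : ℂ), (mem_Ot τ).2 b1⟩ * ⟨Complex.I, (mem_Ot τ).2 hI1⟩)
      rw [map_add, map_mul, ← rd_coe τ, ← rd_coe τ, ← rd_coe τ] at h1
      have h2 : ((z.re : ℝ) : ℂ) + ((z.im : ℝ) : ℂ) * Complex.I = z := Complex.re_add_im z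
      rw [← h1]
      congr 1
      exact h2.symm
    have e2 : rd τ ((starRingEnd ℂ) z) = rd τ ((z.re : ℝ) : ℂ) - rd τ ((z.im : ℝ) : ℂ) * rd τ Complex.I := by
      have h1 := rd_coe τ (⟨((z.re : ℝ) : ℂ), (mem_Ot τ).2 a1⟩ - ⟨((z.im : ℝ) : ℂ), (mem_Ot τ).2 b1⟩ * ⟨Complex.I, (mem_Ot τ).2 hI1⟩)
      rw [map_sub, map_mul, ← rd_coe τ, ← rd_coe τ, ← rd_coe τ] at h1
      have h2 : ((z.re : ℝ) : ℂ) - ((z.im : ℝ) : ℂ) * Complex.I = (starRingEnd ℂ) z := by
        apply Complex.ext <;> simp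
      rw [← h1]
      congr 1
      exact h2.symm
    have e3 : rd τ z ^ p = rd τ ((starRingEnd ℂ) z) := by
      rw [e1, e2, add_pow_char, mul_pow, ap, bp, hIp]
      ring
    have hzp : ‖τ (z ^ p)‖ ≤ 1 := by
      rw [map_pow, norm_pow]
      exact pow_le_one₀ (norm_nonneg _) hz1
    have h4 : ‖τ (z ^ p - (starRingEnd ℂ) z)‖ ≤ 1 := by
      rw [map_sub, sub_eq_add_neg]
      refine (PadicAlgCl.isNonarchimedean p _ _).trans (max_le hzp ?_)
      rw [norm_neg]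
      exact hc1
    have h6 := (rd_eq_zero τ h4).1 (by
      rw [Pool.Agent.Helper11.OB.rd_sub τ hzp hc1, Pool.Agent.Helper11.TR.rd_powR τ hz1, e3, sub_self])
    rwa [map_sub, map_pow] at h6
  intro l
  rcases conj_pow l with ⟨hl, -⟩ | ⟨hl, -⟩
  · refine ⟨0, fun z hz => ?_⟩
    rw [hl]
    have : ((1 : ℂ →+* ℂ)) z = z := rfl
    rw [this, pow_zero, pow_one, sub_self, norm_zero]
    exact ⟨(hUn _ (m1 z hz)).1, one_pos⟩
  · refine ⟨1, fun z hz => ?_⟩
    rw [hl, pow_one]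
    exact ⟨(hUn _ (m2 z hz)).1, key z hz⟩

end

end Pool.Agent.Helper10.V2
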