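import Pool.Agent.Helper10.V2.Fin
import Pool.Agent.Helper10.V2.CF

/-!
# V2: the theorem without hypotheses
-/

set_option autoImplicit false

namespace Pool.Agent.Helper10.V2

open MvPolynomial Pool.Agent.Helper61.TH Pool.Agent.Helper87.FK Pool.Agent.Helper26.OB Pool.Agent.Helper10.TR
open Pool.Agent.Helper26.OS (evI jacI)

noncomputable section

theorem fin
    {m n : ℕ} (K : Subfield ℂ) (B D : Set (MvPolynomial (Fin m) ℂ))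
    (hB : ∀ g ∈ B, ∀ s, coeff s g ∈ K) (hD : ∀ g ∈ D, ∀ s, coeff s g ∈ K)
    (F : Fin m → MvPolynomial (Fin m) ℂ) (hF : ∀ i s, coeff s (F i) ∈ K)
    (hFX : ∀ t, ((∀ g ∈ B, eval t g = 0) ∧ ∃ g ∈ D, eval t g ≠ 0) →
      ((∀ g ∈ B, eval (fun i => eval t (F i)) g = 0) ∧ ∃ g ∈ D, eval (fun i => eval t (F i)) g ≠ 0))
    (P : Fin n → MvPolynomial (Fin m ⊕ Fin n) ℂ) (hP : ∀ r s, coeff s (P r) ∈ K)
    (htri : ∀ r, ∀ s ∈ (P r).support, ∀ j, r < j → s (Sum.inr j) = 0)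
    (e : Fin n → ℕ) (he : ∀ r, 1 ≤ e r)
    (hdeg : ∀ y : Fin m ⊕ Fin n → ℂ, ((∀ g ∈ B, eval (fun i => y (Sum.inl i)) g = 0) ∧
      ∃ g ∈ D, eval (fun i => y (Sum.inl i)) g ≠ 0) → ∀ r, (fib (Sum.inr r) y (P r)).natDegree = e r)
    (t : Fin m → ℂ) (ht : ∀ i, t i ∈ K) (htX : (∀ g ∈ B, eval t g = 0) ∧ ∃ g ∈ D, eval t g ≠ 0) (x : Fin n → ℂ)
    (hx : (∃ (A : Subfield ℂ) (σ : ℂ ≃+* ℂ), (∀ z ∈ K, σ z = z) ∧
        ((NumberField K ∧ ∀ z, z ∈ A ↔ IsAlgebraic ℚ z) ∨ ((∀ z, σ z = (starRingEnd ℂ) z) ∧ ∀ z, z ∈ A)) ∧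
        Good A (σ : ℂ →+* ℂ) F B D ∧ (∀ r, x r ∈ A) ∧
        ∀ r : Fin n, 2 ≤ e r → ∃ l : ℕ, l.Prime ∧ e r < l ∧ l ∣ ln σ x (r + 1) / ln σ x r) ∨
      (NumberField K ∧ (∀ t, ((∀ g ∈ B, eval t g = 0) ∧ ∃ g ∈ D, eval t g ≠ 0) →
          (Matrix.of fun i j => eval t (pderiv j (F i))).det ≠ 0) ∧
        ∃ l : Fin n → ℕ, Function.Injective l ∧ ∀ r, (e r = 1 ∧ x r ∈ K) ∨ ((l r).Prime ∧ e r < l r ∧
        x r ∉ K ∧ ∃ L : IntermediateField K ℂ, IsGalois K L ∧ Module.finrank K L = l r ∧ x r ∈ L)))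
    (V : Set (MvPolynomial (Fin m ⊕ Fin n) ℂ)) :
    ∃ S : Finset (ℕ × ℕ), {k : ℕ | ∀ g ∈ V, eval ((fun y : Fin m ⊕ Fin n → ℂ =>
        Sum.elim (fun i => eval (fun j => y (Sum.inl j)) (F i)) fun r => eval y (P r))^[k] (Sum.elim t x)) g = 0} =
      {k | ∃ q ∈ S, ∃ j, k = q.1 + q.2 * j} :=
  fin_of frob_conj K B D hB hD F hF hFX P hP htri e he hdeg t ht htX x hx V

end

end Pool.Agent.Helper10.V2
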