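import Pool.Agent.Helper10.V2.Defs
import Pool.Agent.Helper11.TR.RU

/-!
# V2: no critical residue where an equation of a member of the family is a unit
-/

set_option autoImplicit false

namespace Pool.Agent.Helper10.V2

open MvPolynomial Pool.Agent.Helper61.TH Pool.Agent.Helper87.FK Pool.Agent.Helper26.OB Pool.Agent.Helper10.TR

noncomputable section

theorem Fam.coeffs {m : ℕ} {A : Subfield ℂ} {s : ℂ →+* ℂ} {F : Fin m → MvPolynomial (Fin m) ℂ}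
    {B D : Set (MvPolynomial (Fin m) ℂ)} {Z : Set (MvPolynomial (Fin m) ℂ)} (h : Fam A s F B D Z) :
    ∀ h ∈ Z, ∀ u, coeff u h ∈ A := by
  cases h <;> assumption

theorem Fam.congr {m : ℕ} {A : Subfield ℂ} {s : ℂ →+* ℂ} {F : Fin m → MvPolynomial (Fin m) ℂ}
    {B D B' D' : Set (MvPolynomial (Fin m) ℂ)} (hX : ∀ t, InX B D t ↔ InX B' D' t) {Z : Set (MvPolynomial (Fin m) ℂ)}
    (h : Fam A s F B D Z) : Fam A s F B' D' Z := by
  induction h with
  | union Z k C hZ _ h ih => exact Fam.union Z k C hZ ih fun t ht => h t ((hX t).2 ht)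
  | conj Z W hZ _ h ih => exact Fam.conj Z W hZ ih fun t ht => h t ((hX t).2 ht)
  | image Z W hZ _ h ih => exact Fam.image Z W hZ ih fun t ht => h t ((hX t).2 ht)
  | preimage Z W hZ _ h ih => exact Fam.preimage Z W hZ ih fun t ht => h t ((hX t).2 ht)
  | invariant Z Y W hZ hY _ h1 h2 ih =>
    exact Fam.invariant Z Y W hZ hY ih (fun t ht => h1 t ((hX t).2 ht)) fun t ht => h2 t ((hX t).2 ht)

/-- no critical residue where an equation of a set which contains the critical locus is a unit -/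
theorem crit_unit (A : Subfield ℂ) (hA : ∀ z : ℂ, IsAlgebraic A z → z ∈ A) {m : ℕ}
    (B : Set (MvPolynomial (Fin m) ℂ)) (hB : ∀ g ∈ B, ∀ u, coeff u g ∈ A) (D : Finset (MvPolynomial (Fin m) ℂ))
    (hD : ∀ g ∈ D, ∀ u, coeff u g ∈ A) (F : Fin m → MvPolynomial (Fin m) ℂ) (hF : ∀ i u, coeff u (F i) ∈ A)
    (H : Finset (MvPolynomial (Fin m) ℂ)) (hH : ∀ h ∈ H, ∀ u, coeff u h ∈ A)
    (hcov : ∀ t, InX B ↑D t → (jac F t).det = 0 → ∀ h ∈ H, eval t h = 0) :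
    ∃ S : Finset ℂ, (∀ z ∈ S, z ∈ A) ∧ ∀ (p : ℕ) [Fact p.Prime] (τ : ℂ →+* PadicAlgCl p), Un τ S →
        ∀ t : Fin m → ℂ, (∀ g ∈ B, eval t g = 0) → (∀ i, ‖τ (t i)‖ ≤ 1) → (∃ g ∈ D, ‖τ (eval t g)‖ = 1) →
          (∃ h ∈ H, ‖τ (eval t h)‖ = 1) → ‖τ (jac F t).det‖ = 1 := by
  classical
  obtain ⟨J, hJ⟩ := Pool.Agent.Helper26.OS.exists_jacPoly98 A F hF
  have hJA : ∀ u, coeff u (map A.subtype J) ∈ A := by
    intro u
    rw [coeff_map]
    exact (coeff u J).2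
  obtain ⟨S, hSdef⟩ : ∃ S : Set (MvPolynomial (Fin m) ℂ), ∀ q, q ∈ S ↔ q ∈ B ∨ q = map A.subtype J :=
    ⟨{q | q ∈ B ∨ q = map A.subtype J}, fun q => Iff.rfl⟩
  have hS : ∀ q ∈ S, ∀ u, coeff u q ∈ A := by
    intro q hq u
    rcases (hSdef q).1 hq with hq | rfl
    · exact hB q hq u
    · exact hJA u
  have h0 : ∀ h ∈ H, ∀ g ∈ D, ∀ y : Fin m → ℂ, (∀ q ∈ S, eval y q = 0) → eval y (g * h) = 0 := by
    intro h hh g hg y hy
    rw [map_mul]
    by_cases h0 : eval y g = 0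
    · rw [h0, zero_mul]
    · have hX : InX B ↑D y := ⟨fun q hq => hy q ((hSdef q).2 (Or.inl hq)), g, hg, h0⟩
      rw [hcov y hX (by rw [hJ]; exact hy _ ((hSdef _).2 (Or.inr rfl))) h hh, mul_zero]
  have h2 : ∀ (h : H) (g : D), ∃ (Q : Finset (MvPolynomial (Fin m) ℂ)) (Z : Finset ℂ),
      (∀ q ∈ Q, q ∈ S) ∧ (∀ z ∈ Z, z ∈ A) ∧
      ∀ (p : ℕ) [Fact p.Prime] (τ : ℂ →+* PadicAlgCl p), Un τ Z → ∀ y : Fin m → ℂ, (∀ v, ‖τ (y v)‖ ≤ 1) →
        (∀ q ∈ Q, ‖τ (eval y q)‖ < 1) → ‖τ (eval y (g.1 * h.1))‖ < 1 := fun h g =>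
    red_imp A hA S hS (g.1 * h.1) (Pool.Agent.Helper11.TR.coeffs_mulR A (hD g.1 g.2) (hH h.1 h.2)) (h0 h.1 h.2 g.1 g.2)
  choose Q Z2 hQ hZ2 hred using h2
  refine ⟨(Finset.univ : Finset (H × D)).biUnion (fun a => Z2 a.1 a.2) ∪
      (map A.subtype J).support.image fun u => coeff u (map A.subtype J), ?_, ?_⟩
  · intro z hz
    rcases Finset.mem_union.1 hz with hz | hz
    · obtain ⟨a, -, hz⟩ := Finset.mem_biUnion.1 hz
      exact hZ2 a.1 a.2 z hz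
    · obtain ⟨u, -, rfl⟩ := Finset.mem_image.1 hz
      exact hJA u
  · intro p _ τ hUn t htB ht hgD hhH
    obtain ⟨g, hg, hgu⟩ := hgD
    obtain ⟨h, hh, hhu⟩ := hhH
    have hJint : ‖τ (eval t (map A.subtype J))‖ ≤ 1 := by
      refine (rd_eval τ _ (fun u => ?_) t ht).1
      by_cases h0 : coeff u (map A.subtype J) = 0
      · rw [h0, map_zero, norm_zero]
        exact zero_le_one
      · exact (hUn _ (Finset.mem_union_right _ (Finset.mem_image.2 ⟨u, mem_support_iff.2 h0, rfl⟩))).1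
    rw [hJ]
    by_contra hne
    have hlt := lt_of_le_of_ne hJint hne
    have h5 := hred ⟨h, hh⟩ ⟨g, hg⟩ p τ (fun z hz => hUn z (Finset.mem_union_left _
      (Finset.mem_biUnion.2 ⟨(⟨h, hh⟩, ⟨g, hg⟩), Finset.mem_univ _, hz⟩))) t ht (by
        intro q hq
        rcases (hSdef q).1 (hQ ⟨h, hh⟩ ⟨g, hg⟩ q hq) with h6 | rfl
        · rw [htB q h6, map_zero, norm_zero]
          exact zero_lt_one
        · exact hlt)
    rw [map_mul, map_mul, norm_mul, hgu, hhu, one_mul] at h5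
    exact absurd h5 (lt_irrefl _)

end

end Pool.Agent.Helper10.V2
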