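import Pool.Agent.Helper10.TR.Defs2

/-!
# V2: closed sets which contain no recurrent residue fixed by Frobenius: definitions
-/

set_option autoImplicit false

namespace Pool.Agent.Helper10.V2

open MvPolynomial Pool.Agent.Helper61.TH Pool.Agent.Helper87.FK Pool.Agent.Helper26.OB Pool.Agent.Helper10.TR

noncomputable section

/-- `t` lies on the closed set `Z` -/
def On {m : ℕ} (Z : Set (MvPolynomial (Fin m) ℂ)) (t : Fin m → ℂ) : Prop := ∀ h ∈ Z, eval t h = 0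

/-- the smallest family of closed sets over `A` which has `Z` if `Z` lies in a finite union of members (`union`), or if the
intersection of the `sʲ(Z)` (`conj`), `F(Z)` (`image`), `F⁻¹(Z)` (`preimage`) or `Z ∩ Y`, `F(Z), F(Y) ⊆ Y` (`invariant`) lies in a
member -/
inductive Fam {m : ℕ} (A : Subfield ℂ) (s : ℂ →+* ℂ) (F : Fin m → MvPolynomial (Fin m) ℂ)
    (B D : Set (MvPolynomial (Fin m) ℂ)) : Set (MvPolynomial (Fin m) ℂ) → Prop
  | union (Z : Set (MvPolynomial (Fin m) ℂ)) (k : ℕ) (C : Fin k → Set (MvPolynomial (Fin m) ℂ))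
      (hZ : ∀ h ∈ Z, ∀ u, coeff u h ∈ A) (hC : ∀ i, Fam A s F B D (C i))
      (h : ∀ t, InX B D t → On Z t → ∃ i, On (C i) t) : Fam A s F B D Z
  | conj (Z W : Set (MvPolynomial (Fin m) ℂ)) (hZ : ∀ h ∈ Z, ∀ u, coeff u h ∈ A) (hW : Fam A s F B D W)
      (h : ∀ t, InX B D t → (∀ j : ℕ, ∀ h ∈ Z, eval t (map (s ^ j) h) = 0) → On W t) : Fam A s F B D Z
  | image (Z W : Set (MvPolynomial (Fin m) ℂ)) (hZ : ∀ h ∈ Z, ∀ u, coeff u h ∈ A) (hW : Fam A s F B D W)
      (h : ∀ t, InX B D t → On Z t → On W (ev F t)) : Fam A s F B D Z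
  | preimage (Z W : Set (MvPolynomial (Fin m) ℂ)) (hZ : ∀ h ∈ Z, ∀ u, coeff u h ∈ A) (hW : Fam A s F B D W)
      (h : ∀ t, InX B D t → On Z (ev F t) → On W t) : Fam A s F B D Z
  | invariant (Z Y W : Set (MvPolynomial (Fin m) ℂ)) (hZ : ∀ h ∈ Z, ∀ u, coeff u h ∈ A)
      (hY : ∀ h ∈ Y, ∀ u, coeff u h ∈ A) (hW : Fam A s F B D W)
      (h1 : ∀ t, InX B D t → On Z t ∨ On Y t → On Y (ev F t))
      (h2 : ∀ t, InX B D t → On Z t → On Y t → On W t) : Fam A s F B D Z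

/-- the critical locus lies in a member of the family -/
def Good {m : ℕ} (A : Subfield ℂ) (s : ℂ →+* ℂ) (F : Fin m → MvPolynomial (Fin m) ℂ)
    (B D : Set (MvPolynomial (Fin m) ℂ)) : Prop :=
  ∃ Z, Fam A s F B D Z ∧ ∀ t, InX B D t → (jac F t).det = 0 → On Z t

end

end Pool.Agent.Helper10.V2
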